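import Pool.Agent.H6.FI.TargetsA

/-!
Board fi_modules, row AFF: a solvable group with a maximal subgroup.
-/

set_option autoImplicit false

open scoped Classical
open FI

namespace Pool.Agent.H40.FI

theorem pf_AFF (h1 : T_AF1) (h2 : T_AF3) (h3 : T_SEC) : T_AFF := by
  intro R _ _ H hs hH
  obtain ⟨N, hN⟩ := h1 R H hs hH
  obtain ⟨p, k, hp, hk, hpk⟩ := hN.ppw
  obtain ⟨W, iW, fW, f, κ, hf, hker, hcard, hκ⟩ :=
    h3 R H.normalCore N inferInstance hN.nor hN.le hN.com
  have hcard' : Nat.card W = p ^ k := by rw [hcard, hpk]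
  have hnor := hN.nor
  refine ⟨W, iW, fW, κ, p, k, hp, hk, hcard', (h2 R H N p k hN hp hk hpk).1, ⟨?_, ?_⟩, ?_,
    (h2 R H N p k hN hp hk hpk).2⟩
  · rw [← Finite.one_lt_card_iff_nontrivial, hcard']
    exact Nat.one_lt_pow hk.ne' hp.one_lt
  · intro X hX
    set L : Subgroup R := (Subgroup.comap f (AddSubgroup.toSubgroup X)).map N.subtype with hLdef
    have memL : ∀ r : R, r ∈ L ↔ ∃ d : N, Multiplicative.toAdd (f d) ∈ X ∧ (d : R) = r := by
      intro r
      rw [hLdef, Subgroup.mem_map]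
      exact Iff.rfl
    have hLn : L.Normal := by
      refine ⟨fun n hn g => ?_⟩
      obtain ⟨d, hd, rfl⟩ := (memL n).1 hn
      refine (memL _).2 ⟨⟨g * d * g⁻¹, hnor.conj_mem _ d.2 g⟩, ?_, rfl⟩
      rw [← hκ g d ⟨g * d * g⁻¹, hnor.conj_mem _ d.2 g⟩ rfl]
      exact hX g (Subgroup.mem_top g) _ hd
    have hBL : H.normalCore ≤ L := by
      intro b hb
      refine (memL b).2 ⟨⟨b, hN.le hb⟩, ?_, rfl⟩
      rw [(hker ⟨b, hN.le hb⟩).2 hb, toAdd_one]
      exact X.zero_mem
    have hLN : L ≤ N := by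
      intro b hb
      obtain ⟨d, -, rfl⟩ := (memL b).1 hb
      exact d.2
    rcases hN.min L hLn hBL hLN with h | h
    · left
      rw [eq_bot_iff]
      intro x hx
      obtain ⟨d, hd⟩ := hf (Multiplicative.ofAdd x)
      have h4 : (d : R) ∈ L := (memL _).2 ⟨d, by rw [hd, toAdd_ofAdd]; exact hx, rfl⟩
      rw [h] at h4
      have h5 := (hker d).2 h4
      rw [hd] at h5
      have h6 : x = 0 := by
        have := congrArg Multiplicative.toAdd h5
        rwa [toAdd_ofAdd, toAdd_one] at this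
      rw [h6]
      exact AddSubgroup.mem_bot.2 rfl
    · right
      rw [eq_top_iff]
      intro w _
      obtain ⟨d, hd⟩ := hf (Multiplicative.ofAdd w)
      have h4 : (d : R) ∈ L := by
        rw [h]
        exact d.2
      obtain ⟨d1, hd1, hd2⟩ := (memL _).1 h4
      have h5 : d1 = d := Subtype.ext hd2
      rw [h5, hd, toAdd_ofAdd] at hd1
      exact hd1
  · have hCk : Ck κ ⊤ = N := by
      ext r
      constructor
      · intro hr
        refine hN.cen r fun a ha => ?_
        have hr' : ∀ w : W, κ r w = w := fun w => hr w (AddSubgroup.mem_top w)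
        set d : N := ⟨a, ha⟩ with hd
        set d' : N := ⟨r * a * r⁻¹, hnor.conj_mem _ ha r⟩ with hd'
        have h4 := hκ r d d' rfl
        rw [hr'] at h4
        have h5 : f d = f d' := Multiplicative.toAdd.injective h4
        have h6 : f (d' * d⁻¹) = 1 := by
          rw [map_mul, map_inv, h5, mul_inv_cancel]
        exact (hker _).1 h6
      · intro hr w _
        obtain ⟨d, hd⟩ := hf (Multiplicative.ofAdd w)
        have h4 := hκ r d (⟨r, hr⟩ * d * ⟨r, hr⟩⁻¹) rfl
        have h5 : f (⟨r, hr⟩ * d * ⟨r, hr⟩⁻¹) = f d := by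
          rw [MonoidHom.map_mul, MonoidHom.map_mul, map_inv, mul_right_comm, mul_inv_cancel,
            one_mul]
        rw [h5, hd, toAdd_ofAdd] at h4
        exact h4
    rw [hCk, hcard, ← Subgroup.relIndex_mul_index hN.le, mul_comm]

end Pool.Agent.H40.FI
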