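import Pool.Agent.H6.FI.TargetsC

/-!
Board fi_modules, row DU0: the dual module.
-/

set_option autoImplicit false

open scoped Classical
open FI

namespace Pool.Agent.H40.FI

/-- the dual group, written additively -/
def DV (W : Type) [AddCommGroup W] : Type := Additive (Multiplicative W →* ℂˣ)

noncomputable instance instDV (W : Type) [AddCommGroup W] : AddCommGroup (DV W) :=
  inferInstanceAs (AddCommGroup (Additive (Multiplicative W →* ℂˣ)))

section

variable {W : Type} [AddCommGroup W]

/-- evaluation -/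
noncomputable def ev (v : DV W) (w : W) : ℂˣ :=
  (Additive.toMul (α := Multiplicative W →* ℂˣ) v) (Multiplicative.ofAdd w)

theorem ev_add_left (v v' : DV W) (w : W) : ev (v + v') w = ev v w * ev v' w := rfl

theorem ev_zero_left (w : W) : ev (0 : DV W) w = 1 := rfl

theorem ev_add_right (v : DV W) (w w' : W) : ev v (w + w') = ev v w * ev v w' :=
  (Additive.toMul (α := Multiplicative W →* ℂˣ) v).map_mul (Multiplicative.ofAdd w)
    (Multiplicative.ofAdd w')

theorem ev_zero_right (v : DV W) : ev v 0 = 1 :=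
  (Additive.toMul (α := Multiplicative W →* ℂˣ) v).map_one

theorem ev_ext {v v' : DV W} (h : ∀ w, ev v w = ev v' w) : v = v' := by
  apply (Additive.toMul (α := Multiplicative W →* ℂˣ)).injective
  exact MonoidHom.ext fun w => h (Multiplicative.toAdd w)

theorem ev_sub_right (v : DV W) (w w' : W) : ev v (w - w') = ev v w / ev v w' := by
  rw [eq_div_iff_mul_eq', ← ev_add_right, sub_add_cancel]

set_option linter.unusedSectionVars false

variable [Finite W]

theorem card_DV : Nat.card (DV W) = Nat.card W :=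
  CommGroup.card_monoidHom_of_hasEnoughRootsOfUnity (Multiplicative W) ℂ

instance finite_DV : Finite (DV W) := by
  have h : 0 < Nat.card (DV W) := by
    rw [card_DV]
    exact Nat.card_pos
  exact (Nat.card_pos_iff.1 h).2

theorem ev_sep {w : W} (hw : w ≠ 0) : ∃ v : DV W, ev v w ≠ 1 := by
  obtain ⟨φ, hφ⟩ := CommGroup.exists_apply_ne_one_of_hasEnoughRootsOfUnity
    (Multiplicative W) ℂ (a := Multiplicative.ofAdd w) (fun h => hw (by
      have := congrArg Multiplicative.toAdd h
      simpa using this))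
  exact ⟨Additive.ofMul φ, hφ⟩

omit [Finite W] in
/-- the dual endomorphism -/
noncomputable def dm (k : AddMonoid.End W) : AddMonoid.End (DV W) where
  toFun v := Additive.ofMul ((Additive.toMul (α := Multiplicative W →* ℂˣ) v).comp
    (AddMonoidHom.toMultiplicative k))
  map_zero' := rfl
  map_add' _ _ := rfl

omit [Finite W] in
theorem ev_dm (k : AddMonoid.End W) (v : DV W) (w : W) : ev (dm k v) w = ev v (k w) := rfl

/-- the dual action -/
noncomputable def da {R : Type} [Group R] (κ : R →* AddMonoid.End W) :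
    R →* AddMonoid.End (DV W) where
  toFun r := dm (κ r⁻¹)
  map_one' := by
    ext v : 1
    refine ev_ext fun w => ?_
    rw [ev_dm, inv_one, map_one]
    rfl
  map_mul' a b := by
    ext v : 1
    refine ev_ext fun w => ?_
    rw [ev_dm, mul_inv_rev, map_mul]
    rfl

theorem ev_da {R : Type} [Group R] (κ : R →* AddMonoid.End W) (r : R) (v : DV W) (w : W) :
    ev (da κ r v) w = ev v (κ r⁻¹ w) := rfl

theorem k_inv {R : Type} [Group R] (κ : R →* AddMonoid.End W) (r : R) (w : W) :
    κ r⁻¹ (κ r w) = w := by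
  have h : κ (r⁻¹ * r) w = w := by
    rw [inv_mul_cancel, map_one]
    rfl
  rwa [map_mul] at h

theorem k_inv' {R : Type} [Group R] (κ : R →* AddMonoid.End W) (r : R) (w : W) :
    κ r (κ r⁻¹ w) = w := by
  have h := k_inv κ r⁻¹ w
  rwa [inv_inv] at h

theorem da_fix {R : Type} [Group R] (κ : R →* AddMonoid.End W) (r : R) (v : DV W) :
    da κ r v = v ↔ ∀ w : W, ev v (κ r w) = ev v w := by
  constructor
  · intro h w
    have h1 := congrArg (fun z => ev z (κ r w)) h
    simp only [ev_da, k_inv] at h1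
    exact h1.symm
  · intro h
    refine ev_ext fun w => ?_
    rw [ev_da, ← h (κ r⁻¹ w), k_inv']

theorem Ck_da {R : Type} [Group R] (κ : R →* AddMonoid.End W) : Ck (da κ) ⊤ = Ck κ ⊤ := by
  ext r
  constructor
  · intro h w _
    by_contra hw
    obtain ⟨v, hv⟩ := ev_sep (sub_ne_zero.2 hw)
    have h1 := (da_fix κ r v).1 (h v (AddSubgroup.mem_top v)) w
    rw [ev_sub_right, h1, div_self'] at hv
    exact hv rfl
  · intro h v _
    exact (da_fix κ r v).2 fun w => by rw [h w (AddSubgroup.mem_top w)]

/-- the evaluations on a subgroup of the dual -/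
noncomputable def jm (X : AddSubgroup (DV W)) : W →+ DV X where
  toFun w := Additive.ofMul
    { toFun := fun x => ev ((Multiplicative.toAdd x : X) : DV W) w
      map_one' := ev_zero_left w
      map_mul' := fun _ _ => ev_add_left _ _ w }
  map_zero' := ev_ext fun x => ev_zero_right (x : DV W)
  map_add' w w' := ev_ext fun x => ev_add_right (x : DV W) w w'

theorem ev_jm (X : AddSubgroup (DV W)) (w : W) (x : X) : ev (jm X w) x = ev (x : DV W) w := rfl

theorem mem_jm (X : AddSubgroup (DV W)) (w : W) :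
    w ∈ (jm X).ker ↔ ∀ v ∈ X, ev v w = 1 := by
  rw [AddMonoidHom.mem_ker]
  constructor
  · intro h v hv
    have h1 := congrArg (fun z => ev z ⟨v, hv⟩) h
    exact h1
  · intro h
    exact ev_ext fun x => h x.1 x.2

theorem index_jm (X : AddSubgroup (DV W)) : (jm X).ker.index ≤ Nat.card X := by
  rw [← card_DV (W := X), AddSubgroup.index]
  exact Nat.card_le_card_of_injective _ (QuotientAddGroup.kerLift_injective (jm X))

/-- the annihilator of a subgroup -/
def ann (Y : AddSubgroup W) : AddSubgroup (DV W) where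
  carrier := {v | ∀ w ∈ Y, ev v w = 1}
  zero_mem' := fun w _ => ev_zero_left w
  add_mem' := by
    intro a b ha hb w hw
    rw [ev_add_left, ha w hw, hb w hw, one_mul]
  neg_mem' := by
    intro a ha w hw
    have h1 : ev (-a + a) w = 1 := by
      rw [neg_add_cancel]
      exact ev_zero_left w
    rw [ev_add_left, ha w hw, mul_one] at h1
    exact h1

theorem index_ann (Y : AddSubgroup W) : Y.index ≤ Nat.card (ann Y) := by
  rw [AddSubgroup.index, ← card_DV (W := W ⧸ Y)]
  refine Nat.card_le_card_of_injective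
    (fun φ : DV (W ⧸ Y) => (⟨Additive.ofMul ((Additive.toMul
      (α := Multiplicative (W ⧸ Y) →* ℂˣ) φ).comp
      (AddMonoidHom.toMultiplicative (QuotientAddGroup.mk' Y))), fun w hw => ?_⟩ : ann Y)) ?_
  · have h1 : ev φ ((w : W) : W ⧸ Y) = 1 := by
      rw [(QuotientAddGroup.eq_zero_iff w).2 hw]
      exact ev_zero_right φ
    exact h1
  · intro φ ψ h
    refine ev_ext fun w => ?_
    obtain ⟨w, rfl⟩ := QuotientAddGroup.mk_surjective w
    have h1 := congrArg (fun z : ann Y => ev (z : DV W) w) h
    exact h1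

theorem da_CR {R : Type} [Group R] (κ : R →* AddMonoid.End W) (h : CR κ ⊤ ⊤) :
    CR (da κ) ⊤ ⊤ := by
  intro X _ hX
  have hX0 : Inv κ ⊤ (jm X).ker := by
    intro r _ w hw
    rw [mem_jm] at hw ⊢
    intro v hv
    have h1 := hw _ (hX r⁻¹ (Subgroup.mem_top _) v hv)
    rw [ev_da, inv_inv] at h1
    exact h1
  obtain ⟨Y0, -, hY0, hinf, hsup⟩ := h (jm X).ker le_top hX0
  have hdis : X ⊓ ann Y0 = ⊥ := by
    rw [eq_bot_iff]
    rintro v ⟨hv1, hv2⟩
    have hv : v = 0 := by
      refine ev_ext fun w => ?_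
      have hw : w ∈ (jm X).ker ⊔ Y0 := by
        rw [hsup]
        exact AddSubgroup.mem_top w
      obtain ⟨a, ha, b, hb, rfl⟩ := AddSubgroup.mem_sup.1 hw
      rw [ev_add_right, (mem_jm X a).1 ha v hv1, hv2 b hb, one_mul]
      rfl
    rw [hv]
    exact AddSubgroup.zero_mem _
  refine ⟨ann Y0, le_top, ?_, hdis, ?_⟩
  · intro r _ v hv w hw
    rw [ev_da]
    exact hv _ (hY0 r⁻¹ (Subgroup.mem_top _) w hw)
  · have hcard : Nat.card (DV W) ≤ Nat.card (X × ann Y0) := by
      rw [card_DV, Nat.card_prod]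
      have h1 : ((jm X).ker ⊓ Y0).index ≤ (jm X).ker.index * Y0.index :=
        AddSubgroup.index_inf_le
      rw [hinf, AddSubgroup.index_bot] at h1
      exact h1.trans (Nat.mul_le_mul (index_jm X) (index_ann Y0))
    have hinj : Function.Injective (fun p : X × ann Y0 => (p.1 : DV W) + p.2) := by
      rintro ⟨a, b⟩ ⟨a', b'⟩ hab
      have hab' : (a : DV W) + b = a' + b' := hab
      have h1 : (a : DV W) - a' = b' - b := by
        rw [sub_eq_sub_iff_add_eq_add, hab', add_comm]
      have h2 : (a : DV W) - a' ∈ X ⊓ ann Y0 :=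
        ⟨X.sub_mem a.2 a'.2, by rw [h1]; exact (ann Y0).sub_mem b'.2 b.2⟩
      rw [hdis, AddSubgroup.mem_bot] at h2
      have h3 : a = a' := Subtype.ext (sub_eq_zero.1 h2)
      rw [h2] at h1
      have h4 : b = b' := Subtype.ext (sub_eq_zero.1 h1.symm).symm
      rw [h3, h4]
    have hsurj := (hinj.bijective_of_nat_card_le hcard).2
    rw [eq_top_iff]
    intro v _
    obtain ⟨⟨a, b⟩, hab⟩ := hsurj v
    rw [← hab]
    exact AddSubgroup.add_mem_sup a.2 b.2

end

theorem pf_DU0 : T_DU0 := by
  intro R W _ _ _ _ κ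
  exact ⟨DV W, inferInstance, finite_DV, da κ, fun v => Additive.toMul (α := Multiplicative W →* ℂˣ) v, da_CR κ, Ck_da κ,
    fun r v => da_fix κ r v⟩

end Pool.Agent.H40.FI
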