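import Pool.Agent.H6.FI.TargetsA

/-!
Board fi_modules, row QDX: existence of `D`.
-/

set_option autoImplicit false

open scoped Classical
open FI

namespace Pool.Agent.H40.FI

theorem pf_QDX (h1 : T_QD1) (h2 : T_QD2) : T_QDX := by
  intro R _ _ U hs hn hc hmax
  have hab : ∀ a ∈ U, ∀ b ∈ U, a * b = b * a := by
    intro a ha b hb
    obtain ⟨g, hg⟩ := hc.exists_zpow_surjective
    obtain ⟨i, hi⟩ := hg ⟨a, ha⟩
    obtain ⟨j, hj⟩ := hg ⟨b, hb⟩
    have h : (⟨a, ha⟩ : U) * ⟨b, hb⟩ = ⟨b, hb⟩ * ⟨a, ha⟩ := by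
      rw [← hi, ← hj]
      exact (Commute.zpow_zpow_self g i j)
    exact congrArg Subtype.val h
  obtain ⟨D, hD⟩ := h1 R U hs hn hmax hab
  exact ⟨D, h2 R U D hc hD⟩

end Pool.Agent.H40.FI
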