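import Pool.Agent.H6.FI.TargetsC

/-!
Board fi_modules, row SQ: quotients by solvable normal subgroups.
-/

set_option autoImplicit false

open scoped Classical
open FI

namespace Pool.Agent.H40.FI

theorem pf_SQ (h1 : T_SOL) : T_SQ := by
  intro A B _ _ _ _ f hf hk
  obtain ⟨sA, mA, -, -⟩ := h1 A
  obtain ⟨sB, mB, -, -⟩ := h1 B
  have e1 : (sol B).comap f ≤ sol A := by
    refine mA _ inferInstance ?_
    have hle : f.ker ≤ (sol B).comap f := fun x hx => by
      rw [Subgroup.mem_comap, MonoidHom.mem_ker.1 hx]
      exact (sol B).one_mem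
    have := hk
    have := sB
    refine Group.isSolvable_of_ker_le_range (Subgroup.inclusion hle) (f.subgroupComap (sol B)) ?_
    intro x hx
    have hx' : f (x : A) = 1 := congrArg Subtype.val (MonoidHom.mem_ker.1 hx)
    exact ⟨⟨x, MonoidHom.mem_ker.2 hx'⟩, rfl⟩
  have e2 : (sol A).map f ≤ sol B := by
    refine mB _ ((sol_normal A).map f hf) ?_
    have := sA
    exact Group.isSolvable_of_surjective (f.subgroupMap_surjective (sol A))
  have e3 : (sol B).comap f = sol A := le_antisymm e1 (Subgroup.map_le_iff_le_comap.1 e2)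
  refine ⟨?_, e3⟩
  rw [← e3]
  exact Subgroup.index_comap_of_surjective (sol B) hf

end Pool.Agent.H40.FI
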